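import Pool.Agent.Lib.MP_85878b_an.Attained

/-! # Maximisers whose multiplier norm is attained -/

set_option autoImplicit false

namespace Pool.Agent.Results.MP_85878b_an.AttainedRigidity

open MeasureTheory Metric Set
open scoped ENNReal
open Pool.Agent.Lib.MP_85878b_an

/-- Let `a > -1`, let `f` maximise the multiplier norm `M_f(a)` over the class `S`, and let the
supremum defining `M_f(a)` be attained. Then every holomorphic disc of Schwarzian derivatives of
functions of class `S` with centre `S_f` is constant, and the complement of the image of `f` has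
empty interior. -/
theorem result (a : ℝ) (ha : -1 < a) (f : ℂ → ℂ) (hf : ClassS f)
    (hmax : ∀ g, ClassS g → mult a (schw g) ≤ mult a (schw f))
    (hatt : ∃ φ : ℂ → ℂ, DifferentiableOn ℂ φ (ball 0 1) ∧ berg a φ = 1 ∧
      berg (a + 4) (fun z => schw f z * φ z) = mult a (schw f)) :
    (∀ g : ℂ → ℂ → ℂ, HolDisc f g →
      ∀ t ∈ ball (0 : ℂ) 1, ∀ z ∈ ball (0 : ℂ) 1, schw (g t) z = schw f z) ∧
    interior (f '' ball 0 1)ᶜ = ∅ := by
  obtain ⟨φ, hφ, hφ1, hφ2⟩ := hatt
  exact ⟨fun g hg => rigid ha hf hmax hφ hφ1 hφ2 hg, interior_compl ha hf hmax hφ hφ1 hφ2⟩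

end Pool.Agent.Results.MP_85878b_an.AttainedRigidity
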