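import Pool.Agent.Lib.MP_85878b_an.Lower

/-! # Maximisers of the Bergman multiplier norm have Schwarzian derivative of norm close to six -/

set_option autoImplicit false

namespace Pool.Agent.Results.MP_85878b_an.NormLowerBound

open MeasureTheory Metric Set
open scoped ENNReal
open Pool.Agent.Lib.MP_85878b_an

/-- Let `a > -1` and let `f` maximise the multiplier norm `M_f(a)` over the class `S`. Then
`36 (a+3)(a+5)/((a+2)(a+4)) ≤ M_f(a)² < ∞`, and the norm of `S_f` is at least
`6 √((a+1)(a+3)/((a+2)(a+4)))`. -/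
theorem result (a : ℝ) (ha : -1 < a) (f : ℂ → ℂ) (hf : ClassS f)
    (hmax : ∀ g, ClassS g → mult a (schw g) ≤ mult a (schw f)) :
    ENNReal.ofReal (36 * ((a + 3) * (a + 5)) / ((a + 2) * (a + 4))) ≤ mult a (schw f) ∧
    mult a (schw f) < ∞ ∧
    ENNReal.ofReal (6 * Real.sqrt ((a + 1) * (a + 3) / ((a + 2) * (a + 4)))) ≤
      normE (schw f) := by
  have ha1 : 0 < a + 1 := by linarith
  have ha2 : 0 < a + 2 := by linarith
  have ha3 : 0 < a + 3 := by linarith
  have ha4 : 0 < a + 4 := by linarith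
  have ha5 : 0 < a + 5 := by linarith
  have h1 : ENNReal.ofReal (36 * ((a + 3) * (a + 5)) / ((a + 2) * (a + 4))) ≤ mult a (schw f) :=
    (koebe_lower ha).trans (hmax koebe koebe_class)
  have htop : mult a (schw f) ≠ ∞ := mult_lt_top ha hf
  refine ⟨h1, lt_top_iff_ne_top.mpr htop, ?_⟩
  by_cases hN : normE (schw f) = ∞
  · rw [hN]
    exact le_top
  · have h2 := h1.trans (mult_le ha (schw f))
    obtain ⟨N, hNN⟩ : ∃ N : ℝ, N = (normE (schw f)).toReal := ⟨_, rfl⟩
    have hN0 : 0 ≤ N := by
      rw [hNN]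
      exact ENNReal.toReal_nonneg
    have hNe : normE (schw f) = ENNReal.ofReal N := by
      rw [hNN, ENNReal.ofReal_toReal hN]
    rw [hNe, ← ENNReal.ofReal_pow hN0, ← ENNReal.ofReal_mul (by positivity),
      ENNReal.ofReal_le_ofReal_iff (by positivity)] at h2
    rw [hNe]
    apply ENNReal.ofReal_le_ofReal
    have h3 : (a + 1) * (a + 3) / ((a + 2) * (a + 4)) ≤ (N / 6) ^ 2 := by
      rw [div_mul_eq_mul_div, div_le_div_iff₀ (by positivity) ha1] at h2
      rw [div_le_iff₀ (by positivity)]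
      have h4 : (a + 5) * (36 * ((a + 1) * (a + 3))) ≤
          (a + 5) * (N ^ 2 * ((a + 2) * (a + 4))) := by linarith
      have h5 := le_of_mul_le_mul_left h4 ha5
      linarith
    have h4 := Real.sqrt_le_sqrt h3
    rw [Real.sqrt_sq (by positivity)] at h4
    linarith

end Pool.Agent.Results.MP_85878b_an.NormLowerBound
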