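import Pool.Agent.Lib.MP_85878b_an.Thick

/-! # Univalent functions with uniformly thick complement are uniformly far from maximal -/

set_option autoImplicit false

namespace Pool.Agent.Results.MP_85878b_an.ThickComplement

open MeasureTheory Metric Set
open scoped ENNReal
open Pool.Agent.Lib.MP_85878b_an

/-- Let `a > -1` and let `M = sup M_g(a)²` be the supremum over the class `S`. Then `M < ∞`; if the
complement of the image of `f` in `S` is uniformly thick with constant `c`, then
`M_f(a)² + ((a+5)/(a+1)) ((6/100) (27c/500)²)² ≤ M`. In particular the complement of the image of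
a maximiser is not uniformly thick with any constant. -/
theorem result (a : ℝ) (ha : -1 < a) :
    (⨆ g ∈ {g : ℂ → ℂ | ClassS g}, mult a (schw g)) < ∞ ∧
    (∀ f, ClassS f → ∀ c : ℝ, 0 < c → Thick f c →
      mult a (schw f) + ENNReal.ofReal ((a + 5) / (a + 1) * (6 / 100 * (27 / 500 * c) ^ 2) ^ 2) ≤
        ⨆ g ∈ {g : ℂ → ℂ | ClassS g}, mult a (schw g)) ∧
    ∀ f, ClassS f → (∀ g, ClassS g → mult a (schw g) ≤ mult a (schw f)) →
      ∀ c : ℝ, 0 < c → ¬ Thick f c := by
  refine ⟨?_, ?_, ?_⟩
  · obtain ⟨C, hC0, hC⟩ := weak_kraus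
    have h1 : (⨆ g ∈ {g : ℂ → ℂ | ClassS g}, mult a (schw g)) ≤
        ENNReal.ofReal ((a + 5) / (a + 1)) * ENNReal.ofReal C ^ 2 := by
      refine iSup₂_le fun g hg => (mult_le ha (schw g)).trans ?_
      have h2 : normE (schw g) ≤ ENNReal.ofReal C :=
        iSup₂_le fun z hz => ENNReal.ofReal_le_ofReal (hC g hg.diff hg.inj z hz)
      gcongr
    refine lt_of_le_of_lt h1 (ENNReal.mul_lt_top ENNReal.ofReal_lt_top ?_)
    exact ENNReal.pow_lt_top ENNReal.ofReal_lt_top
  · intro f hf c hc hthick
    exact thick_gap ha hf (fun g hg => le_iSup₂_of_le g hg le_rfl) hc hthick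
  · intro f hf hmax c hc hthick
    have h1 := thick_gap ha hf hmax hc hthick
    have htop := mult_lt_top ha hf
    have h2 : ENNReal.ofReal ((a + 5) / (a + 1) * (6 / 100 * (27 / 500 * c) ^ 2) ^ 2) = 0 := by
      have h3 : mult a (schw f) +
          ENNReal.ofReal ((a + 5) / (a + 1) * (6 / 100 * (27 / 500 * c) ^ 2) ^ 2) ≤
          mult a (schw f) + 0 := by rw [add_zero]; exact h1
      exact le_antisymm ((ENNReal.add_le_add_iff_left htop).mp h3) bot_le
    rw [ENNReal.ofReal_eq_zero] at h2
    have h3 : 0 < a + 1 := by linarith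
    have h4 : 0 < a + 5 := by linarith
    have h5 : 0 < (a + 5) / (a + 1) * (6 / 100 * (27 / 500 * c) ^ 2) ^ 2 := by positivity
    linarith

end Pool.Agent.Results.MP_85878b_an.ThickComplement
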